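import Mathlib

set_option autoImplicit false

namespace Pool.Agent.Results.MP_4c2ece_co.Counter

/-- A finite simple graph. -/
structure FG where
  V : Type
  fin : Finite V
  G : SimpleGraph V

/-- `B` is obtained from `A` by identifying each fibre of the surjection `π` to one vertex. -/
def IsQuot (A B : FG) (π : A.V → B.V) : Prop :=
  π.Surjective ∧ ∀ a b, B.G.Adj a b ↔ a ≠ b ∧ ∃ x y, π x = a ∧ π y = b ∧ A.G.Adj x y

/-- `B` is obtained from `A` by identifying the parts of a partition of `X`. -/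
def Ident (A B : FG) (X : Set A.V) : Prop :=
  ∃ π, IsQuot A B π ∧ ∀ x y, π x = π y → x = y ∨ (x ∈ X ∧ y ∈ X)

/-- `B` is obtained from `A` by contracting one edge. -/
def Contr (A B : FG) : Prop :=
  ∃ u v π, A.G.Adj u v ∧ IsQuot A B π ∧ π u = π v ∧
    ∀ x y, π x = π y → x = y ∨ ((x = u ∨ x = v) ∧ (y = u ∨ y = v))

/-- `B` is isomorphic to a subgraph of `A`. -/
def Sub (A B : FG) : Prop :=
  ∃ f : B.V → A.V, f.Injective ∧ ∀ a b, B.G.Adj a b → A.G.Adj (f a) (f b)

/-- Closed under minors (subgraphs up to isomorphism, edge contractions, and iterates). -/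
def MinorClosed (H : FG → Prop) : Prop :=
  ∀ A B, Relation.ReflTransGen (fun A B => Sub A B ∨ Contr A B) A B → H A → H B

/-- `A` admits a `k`-identification to `H`. -/
def IdLe (H : FG → Prop) (A : FG) (k : ℕ) : Prop :=
  ∃ B X, X.ncard ≤ k ∧ Ident A B X ∧ H B

/-- `m` successive edge contractions turn `A` into a graph of `H`. -/
def ContrTo (H : FG → Prop) : ℕ → FG → Prop
  | 0, A => H A
  | m + 1, A => ∃ B, Contr A B ∧ ContrTo H m B

def Apex (A : FG) : Prop := ∃ S : Set A.V, S.Subsingleton ∧ ∀ a ∉ S, ∀ b ∉ S, ∀ c ∉ S, ∀ d ∉ S,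
  A.G.Adj a b → A.G.Adj a c → A.G.Adj a d → b = c ∨ b = d ∨ c = d

lemma closed : MinorClosed Apex := fun A B h hA => by
  induction h with
  | refl => exact hA
  | tail _ h ih =>
    obtain ⟨S, s1, s2⟩ := ih
    rcases h with ⟨f, f1, f2⟩ | ⟨u, v, π, a1, ⟨-, a2⟩, a3, a4⟩
    · exact ⟨f ⁻¹' S, s1.preimage f1, fun a ha b hb c hc d hd h1 h2 h3 => by
        simpa only [f1.eq_iff] using s2 _ ha _ hb _ hc _ hd (f2 _ _ h1) (f2 _ _ h2) (f2 _ _ h3)⟩
    · refine ⟨π '' S, s1.image π, fun a ha b hb c hc d hd h1 h2 h3 => ?_⟩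
      obtain ⟨n1, x1, y1, rfl, rfl, e1⟩ := (a2 _ _).1 h1
      obtain ⟨n2, x2, y2, p2, rfl, e2⟩ := (a2 _ _).1 h2
      obtain ⟨n3, x3, y3, p3, rfl, e3⟩ := (a2 _ _).1 h3
      have o : ∀ z, π z ∉ π '' S → z ∉ S := fun z hz k => hz ⟨z, k, rfl⟩
      have b1 := o _ hb; have b2 := o _ hc; have b3 := o _ hd
      by_cases q : π x1 = π u
      · have u1 := o u (q ▸ ha); have v1 := o v (a3 ▸ q ▸ ha)
        have := a4 x1 u q; have := a4 x2 u (p2.trans q); have := a4 x3 u (p3.trans q)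
        have k1 := fun b hb c hc => s2 u u1 v v1 b hb c hc a1
        have k2 := fun b hb c hc => s2 v v1 u u1 b hb c hc a1.symm
        have := k1 _ b1 _ b2; have := k1 _ b1 _ b3; have := k1 _ b2 _ b3
        have := k2 _ b1 _ b2; have := k2 _ b1 _ b3; have := k2 _ b2 _ b3
        grind
      · have := a4 _ _ p2; have := a4 _ _ p3
        have := s2 _ (o _ ha) _ b1 _ b2 _ b3 e1
        grind

lemma contr (A : FG) (u v : A.V) (h : u ≠ v) : ∃ (π : A.V → {z // z ≠ v}) (G : SimpleGraph _),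
    IsQuot A ⟨{z // z ≠ v}, have := A.fin; inferInstance, G⟩ π ∧ π u = π v ∧ (∀ z, π z = z ∨ π z = u) ∧
    ∀ x y, π x = π y → x = y ∨ ((x = u ∨ x = v) ∧ (y = u ∨ y = v)) := by
  classical
  let π : A.V → {z // z ≠ v} := fun z => if k : z = v then ⟨u, h⟩ else ⟨z, k⟩
  refine ⟨π, ⟨fun a b => a ≠ b ∧ ∃ x y, π x = a ∧ π y = b ∧ A.G.Adj x y,
    ⟨fun a b ⟨h, x, y, p, q, r⟩ => ⟨h.symm, y, x, q, p, r.symm⟩⟩, ⟨fun a h => h.1 rfl⟩⟩,
    ⟨fun z => ⟨z, dif_neg z.2⟩, fun _ _ => .rfl⟩, by simp [π, h], fun z => ?_, fun x y => ?_⟩ <;>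
  grind

lemma finite (n : ℕ) : ∀ A : FG, Nat.card A.V = n → ∃ m, ContrTo Apex m A := by
  induction n using Nat.strong_induction_on with
  | _ n ih =>
    intro A hA
    by_cases h : ∃ u v, A.G.Adj u v
    · obtain ⟨u, v, h⟩ := h
      obtain ⟨π, G, h1, h2, -, h3⟩ := contr A u v h.ne
      have := A.fin
      obtain ⟨m, hm⟩ := ih _ (hA ▸ Finite.card_subtype_lt (x := v) (by simp)) ⟨_, _, G⟩ rfl
      exact ⟨m + 1, _, ⟨u, v, π, h, h1, h2, h3⟩, hm⟩
    · exact ⟨0, ∅, by simp, fun a _ b _ _ _ _ _ k => absurd ⟨a, b, k⟩ h⟩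

def Far (k : ℕ) (A : FG) : Prop := ∃ (u v : A.V) (f : A.V → ℤ),
  (∀ x y, A.G.Adj x y → f x ≤ f y + 1) ∧ f u + k < f v ∧
    2 * k + 4 ≤ (A.G.neighborSet u).ncard ∧ 2 * k + 4 ≤ (A.G.neighborSet v).ncard

lemma far (m : ℕ) : ∀ k A, Far k A → ContrTo Apex m A → k < m := by
  induction m with
  | zero =>
    rintro k A ⟨u, v, f, -, h, h1, h2⟩ ⟨S, s1, s2⟩
    have := A.fin
    have : ∀ w ∉ S, ¬ 4 ≤ (A.G.neighborSet w).ncard := fun w hw k => by
      have := Set.ncard_le_ncard_sdiff_add_ncard (A.G.neighborSet w) S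
      have := (Set.ncard_le_one_iff_subsingleton (s := S)).2 s1
      obtain ⟨b, c, d, hb, hc, hd, _⟩ := (Set.two_lt_ncard_iff (s := A.G.neighborSet w \ S)).1
        (by omega)
      have := s2 w hw b hb.2 c hc.2 d hd.2 hb.1 hc.1 hd.1
      tauto
    by_cases q : u ∈ S
    · exact absurd (by omega) (this v fun r => by rw [s1 q r] at h; omega)
    · exact absurd (by omega) (this u q)
  | succ m ih =>
    rintro (_ | k) A ⟨u, v, f, h0, h, h1, h2⟩ ⟨B, ⟨x, y, π, a1, ⟨a0, a2⟩, a3, a4⟩, hB⟩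
    · omega
    have := A.fin; have := B.fin
    refine Nat.succ_lt_succ (ih k B ?_ hB)
    let g (z : A.V) : ℤ := if f z ≤ min (f x) (f y) then f z else f z - 1
    have g1 : ∀ z w, π z = π w → g z = g w := fun z w e => by
      have := a4 z w e; have := h0 _ _ a1; have := h0 _ _ a1.symm
      grind
    have g2 : ∀ z, g (Function.surjInv a0 (π z)) = g z := fun z => g1 _ _ (Function.surjInv_eq a0 _)
    have d : ∀ w, (A.G.neighborSet w).ncard ≤ (B.G.neighborSet (π w)).ncard + 2 := fun w => by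
      have := Set.ncard_le_ncard_sdiff_add_ncard (A.G.neighborSet w) {x, y}
      have := Set.ncard_pair a1.ne
      have := Set.ncard_le_ncard_of_injOn (s := A.G.neighborSet w \ {x, y})
        (t := B.G.neighborSet (π w)) π (fun z hz => (a2 _ _).2 ⟨fun e => (a4 _ _ e).elim hz.1.ne
          fun k => hz.2 k.2, w, z, rfl, rfl, hz.1⟩) fun z hz z' _ e =>
          (a4 _ _ e).resolve_right fun k => hz.2 k.1
      omega
    refine ⟨π u, π v, fun b => g (Function.surjInv a0 b), fun a b hab => ?_, ?_,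
      by linarith [d u], by linarith [d v]⟩
    · obtain ⟨-, z, w, rfl, rfl, e⟩ := (a2 _ _).1 hab
      have := h0 _ _ e
      simp only [g2]; grind
    · simp only [g2]; grind

abbrev broom (n : ℕ) : FG := ⟨Fin (3 * n + 1), inferInstance, SimpleGraph.fromRel fun i j =>
  (i.1 < n ∧ j.1 = n) ∨ (n ≤ i.1 ∧ j.1 = i + 1 ∧ j.1 ≤ 2 * n) ∨ (i.1 = 2 * n ∧ 2 * n < j.1)⟩

theorem result : ∃ H : FG → Prop, MinorClosed H ∧ ∀ k : ℕ, ∃ A : FG, A.G.Connected ∧
    IdLe H A 2 ∧ (∃ m, ContrTo H m A) ∧ ∀ m, ContrTo H m A → k < m := by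
  refine ⟨Apex, closed, fun k => ?_⟩
  obtain ⟨n, hn⟩ : ∃ n, n = 2 * k + 4 := ⟨_, rfl⟩
  let u : Fin (3 * n + 1) := ⟨n, by omega⟩
  let v : Fin (3 * n + 1) := ⟨2 * n, by omega⟩
  refine ⟨broom n, ?_, ?_, finite _ _ rfl, fun m => far m k _ ⟨u, v,
    fun i : Fin (3 * n + 1) => max n (min (i : ℤ) (2 * n)), fun x y h => ?_, ?_, ?_, ?_⟩⟩
  · have r : ∀ j (h : n + j ≤ 2 * n), (broom n).G.Reachable u ⟨n + j, by omega⟩ := fun j => by
      induction j with
      | zero => exact fun _ => .rfl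
      | succ j ih => exact fun h => (ih (by omega)).trans (SimpleGraph.Adj.reachable (by
          simp [broom, Fin.ext_iff]; omega))
    refine (SimpleGraph.connected_iff_exists_forall_reachable _).2 ⟨u, fun (w : Fin _) => ?_⟩
    by_cases a : w.1 < n
    · exact SimpleGraph.Adj.reachable (by simp [broom, Fin.ext_iff, u]; omega)
    by_cases b : w.1 ≤ 2 * n
    · convert r (w - n) (by omega); omega
    · exact (r n (by omega)).trans (SimpleGraph.Adj.reachable (by
        simp [broom, Fin.ext_iff]; omega))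
  · obtain ⟨π, G, h1, -, h2, h3⟩ := contr (broom n) u v (by simp [Fin.ext_iff, u, v]; omega)
    refine ⟨⟨_, _, G⟩, {u, v}, (Set.ncard_insert_le _ _).trans (by simp), ⟨π, h1, h3⟩, ?_⟩
    refine ⟨{a : {z : Fin (3 * n + 1) // z ≠ v} | a.1 = u}, ?_, ?_⟩
    · exact fun a ha b hb => Subtype.ext (Eq.trans ha (Eq.symm hb))
    refine fun a ha b hb c hc d hd k1 k2 k3 => ?_
    have : ∀ a b : {z : Fin (3 * n + 1) // z ≠ v}, a.1 ≠ u → b.1 ≠ u → G.Adj a b →
        a.1.1 = b.1.1 + 1 ∨ b.1.1 = a.1.1 + 1 := fun a b ha hb e => by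
      obtain ⟨-, x, y, rfl, rfl, e⟩ := (h1.2 _ _).1 e
      have p := (h2 x).resolve_right ha
      have q := (h2 y).resolve_right hb
      have := (π x).2; have := (π y).2
      simp only [p, q, broom, SimpleGraph.fromRel_adj, ne_eq, Fin.ext_iff, u, v] at *
      omega
    have k1 := this a b ha hb k1; have k2 := this a c ha hc k2; have k3 := this a d ha hd k3
    simp only [Subtype.ext_iff, Fin.ext_iff]; omega
  · simp only [broom, SimpleGraph.fromRel_adj] at h; beta_reduce; omega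
  · simp only [u, v]; omega
  · refine le_trans (by simp [hn]) (Set.ncard_le_ncard_of_injOn (s := (Set.univ : Set (Fin n)))
      (fun i => (⟨i, by omega⟩ : Fin (3 * n + 1))) (fun i _ => ?_) fun i _ j _ e => ?_)
    · simp [broom, Fin.ext_iff, u]; omega
    · simpa [Fin.ext_iff] using e
  · refine le_trans (by simp [hn]) (Set.ncard_le_ncard_of_injOn (s := (Set.univ : Set (Fin n)))
      (fun i => (⟨2 * n + 1 + i, by omega⟩ : Fin (3 * n + 1))) (fun i _ => ?_) fun i _ j _ e => ?_)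
    · simp [broom, Fin.ext_iff, v]; omega
    · simpa [Fin.ext_iff] using e

end Pool.Agent.Results.MP_4c2ece_co.Counter
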